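import Pool.Agent.H37.CTN.Stmts

/-!
# Board ctn, row MO2
-/

set_option autoImplicit false

namespace Pool.CND

open Finset Polynomial

theorem mo2_thm : S_MO2 := by
  intro p k F L _ _ _ _ _ _ f q r v hp hchar hf hq hF hM0
  classical
  have : Fact p.Prime := ⟨hp⟩
  have : CharP k p := hchar
  have : CharP L p := charP_of_injective_algebraMap (algebraMap k L).injective p
  have : ExpChar L p := ExpChar.prime hp
  have hq2 : 2 ≤ q := by
    rw [hq]
    calc 2 ≤ p := hp.two_le
      _ = p ^ 1 := (pow_one p).symm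
      _ ≤ p ^ f := Nat.pow_le_pow_right hp.pos hf
  have hFc : Fintype.card F = q := by rw [← Nat.card_eq_fintype_card, hF]
  have cpow : ∀ (c : F) (j : ℕ), (cst k F L c) ^ q ^ j = cst k F L c := by
    intro c j
    induction j with
    | zero => simp
    | succ j ih =>
      rw [pow_succ, pow_mul, ih, cst, ← map_pow, ← map_pow, ← hFc, FiniteField.pow_card]
  obtain ⟨φ, hφ⟩ : ∃ φ : ℕ → (L →+* L), ∀ e x, φ e x = x ^ q ^ e :=
    ⟨fun e => iterateFrobenius L p (f * e), fun e x => by
      rw [iterateFrobenius_def, pow_mul, hq]⟩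
  obtain ⟨M, hMd⟩ : ∃ M : Matrix (Fin (r + 1)) (Fin (r + 1)) L,
      M = Matrix.of fun i j : Fin (r + 1) => v j ^ q ^ (i : ℕ) := ⟨_, rfl⟩
  have hMe : ∀ i j, M i j = v j ^ q ^ (i : ℕ) := by
    intro i j
    rw [hMd]
    rfl
  have hdet : M.det ≠ 0 := by
    rw [hMd]
    exact hM0
  have hMo : Mo q (r + 1) v = M.det := by rw [hMd]; rfl
  have hunit : IsUnit M.det := hdet.isUnit
  obtain ⟨w, hw⟩ : ∃ w : L → Fin (r + 1) → L, ∀ x j, w x j = x ^ q ^ (j : ℕ) :=
    ⟨fun x j => x ^ q ^ (j : ℕ), fun _ _ => rfl⟩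
  obtain ⟨α, hα⟩ : ∃ α : L → Fin (r + 1) → L, ∀ x, α x = M⁻¹.mulVec (w x) :=
    ⟨fun x => M⁻¹.mulVec (w x), fun _ => rfl⟩
  have hsys0 : ∀ x, M.mulVec (α x) = w x := by
    intro x
    rw [hα, Matrix.mulVec_mulVec, Matrix.mul_nonsing_inv M hunit, Matrix.one_mulVec]
  have hsys : ∀ x (j : ℕ), j ≤ r → x ^ q ^ j = ∑ i, α x i * v i ^ q ^ j := by
    intro x j hj
    have h1 := congrFun (hsys0 x) ⟨j, by omega⟩
    rw [hw] at h1
    rw [← h1, Matrix.mulVec, dotProduct]
    apply Finset.sum_congr rfl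
    intro i _
    rw [hMe, mul_comm]
  have hadd : ∀ x y, α (x + y) = α x + α y := by
    intro x y
    rw [hα, hα, hα, ← Matrix.mulVec_add]
    congr 1
    funext j
    rw [Pi.add_apply, hw, hw, hw, ← hφ, ← hφ, ← hφ, map_add]
  have hsmul : ∀ (c : F) x, α (cst k F L c * x) = cst k F L c • α x := by
    intro c x
    rw [hα, hα, ← Matrix.mulVec_smul]
    congr 1
    funext j
    rw [Pi.smul_apply, hw, hw, mul_pow, cpow, smul_eq_mul]
  have hbase : ∀ j, α (v j) = Pi.single j 1 := by
    intro j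
    have h1 : w (v j) = M.mulVec (Pi.single j 1) := by
      funext i
      rw [hw, Matrix.mulVec_single_one, Matrix.col_apply, hMe]
    rw [hα, h1, Matrix.mulVec_mulVec, Matrix.nonsing_inv_mul M hunit, Matrix.one_mulVec]
  -- combinations
  obtain ⟨cb, hcb⟩ : ∃ cb : (Fin (r + 1) → F) → L, ∀ c, cb c = ∑ j, cst k F L (c j) * v j :=
    ⟨fun c => ∑ j, cst k F L (c j) * v j, fun _ => rfl⟩
  have hαz : α 0 = 0 := by
    have := hadd 0 0
    rw [add_zero] at this
    exact left_eq_add.mp this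
  have hαs : ∀ (s : Finset (Fin (r + 1))) (g : Fin (r + 1) → L),
      α (∑ j ∈ s, g j) = ∑ j ∈ s, α (g j) := by
    intro s g
    induction s using Finset.induction_on with
    | empty => simp [hαz]
    | insert a s ha ih => rw [Finset.sum_insert ha, Finset.sum_insert ha, hadd, ih]
  have hαcb : ∀ c i, α (cb c) i = cst k F L (c i) := by
    intro c i
    rw [hcb, hαs, Finset.sum_apply, Finset.sum_eq_single i]
    · rw [hsmul, hbase]
      simp
    · intro b _ hb
      rw [hsmul, hbase, Pi.smul_apply, Pi.single_eq_of_ne (Ne.symm hb), smul_zero]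
    · intro h
      exact absurd (Finset.mem_univ i) h
  have hcbinj : Function.Injective cb := by
    intro c c' h
    funext i
    have h1 := hαcb c i
    rw [h, hαcb c' i] at h1
    exact ((algebraMap F k).injective ((algebraMap k L).injective h1)).symm
  -- the polynomial
  obtain ⟨R', hR'⟩ : ∃ R' : L → L, ∀ x, R' x = x ^ q ^ (r + 1) - ∑ i, α x i * v i ^ q ^ (r + 1) :=
    ⟨_, fun _ => rfl⟩
  obtain ⟨A, hA⟩ : ∃ A : L[X], A = ∑ i : Fin (r + 1), (∑ j : Fin (r + 1),
      C (M⁻¹ i j) * X ^ q ^ (j : ℕ)) * C (v i ^ q ^ (r + 1)) := ⟨_, rfl⟩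
  have hAe : ∀ x, A.eval x = ∑ i, α x i * v i ^ q ^ (r + 1) := by
    intro x
    rw [hA, eval_finset_sum]
    apply Finset.sum_congr rfl
    intro i _
    rw [eval_mul, eval_C, eval_finset_sum, hα, Matrix.mulVec, dotProduct]
    congr 1
    apply Finset.sum_congr rfl
    intro j _
    rw [eval_mul, eval_C, eval_pow, eval_X, hw]
  have hAd : A.natDegree ≤ q ^ r := by
    rw [hA]
    apply natDegree_sum_le_of_forall_le
    intro i _
    refine (natDegree_mul_C_le _ _).trans ?_
    apply natDegree_sum_le_of_forall_le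
    intro j _
    refine (natDegree_C_mul_X_pow_le _ _).trans ?_
    exact Nat.pow_le_pow_right (by omega) (by omega)
  have hqq : q ^ r < q ^ (r + 1) := Nat.pow_lt_pow_right (by omega) (by omega)
  obtain ⟨B, hB⟩ : ∃ B : L[X], B = ∏ c : Fin (r + 1) → F, (X + C (cb c)) := ⟨_, rfl⟩
  have hcard : Fintype.card (Fin (r + 1) → F) = q ^ (r + 1) := by
    rw [Fintype.card_fun, Fintype.card_fin, hFc]
  have hBm : B.Monic := by
    rw [hB]
    exact monic_prod_of_monic _ _ (fun c _ => monic_X_add_C _)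
  have hBd : B.natDegree = q ^ (r + 1) := by
    rw [hB, natDegree_prod_of_monic _ _ (fun c _ => monic_X_add_C _)]
    simp only [natDegree_X_add_C, Finset.sum_const, Finset.card_univ, smul_eq_mul, mul_one]
    exact hcard
  have hPm : (X ^ q ^ (r + 1) - A).Monic := by
    apply monic_X_pow_sub
    exact lt_of_le_of_lt (degree_le_natDegree) (by exact_mod_cast lt_of_le_of_lt hAd hqq)
  have hPd : (X ^ q ^ (r + 1) - A).natDegree = q ^ (r + 1) := by
    rw [natDegree_sub_eq_left_of_natDegree_lt, natDegree_X_pow]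
    rw [natDegree_X_pow]
    exact lt_of_le_of_lt hAd hqq
  have hPe : ∀ x, (X ^ q ^ (r + 1) - A).eval x = R' x := by
    intro x
    rw [eval_sub, eval_pow, eval_X, hAe, hR']
  have hR'0 : ∀ c, R' (cb c) = 0 := by
    intro c
    rw [hR', sub_eq_zero]
    have h1 : cb c ^ q ^ (r + 1) = ∑ j, (cst k F L (c j) * v j) ^ q ^ (r + 1) := by
      rw [hcb, ← hφ, map_sum]
      simp only [hφ]
    rw [h1]
    apply Finset.sum_congr rfl
    intro i _
    rw [mul_pow, cpow, hαcb]
  have hPB : (X ^ q ^ (r + 1) - A) = B := by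
    apply Polynomial.eq_of_degree_sub_lt_of_eval_finset_eq (Finset.univ.image cb)
    · rw [Finset.card_image_of_injective _ hcbinj, Finset.card_univ, hcard]
      have h1 : (X ^ q ^ (r + 1) - A - B).degree < (X ^ q ^ (r + 1) - A).degree := by
        apply degree_sub_lt
        · rw [degree_eq_natDegree hPm.ne_zero, degree_eq_natDegree hBm.ne_zero, hPd, hBd]
        · exact hPm.ne_zero
        · rw [hPm.leadingCoeff, hBm.leadingCoeff]
      rw [degree_eq_natDegree hPm.ne_zero, hPd] at h1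
      exact h1
    · intro x hx
      rw [Finset.mem_image] at hx
      obtain ⟨c, -, rfl⟩ := hx
      rw [hPe, hR'0, hB, eval_prod]
      symm
      apply Finset.prod_eq_zero (Finset.mem_univ (-c))
      rw [eval_add, eval_X, eval_C, hcb, hcb, ← Finset.sum_add_distrib]
      apply Finset.sum_eq_zero
      intro j _
      rw [Pi.neg_apply, cst, cst, map_neg, map_neg]
      ring
  have hR'p : ∀ x, R' x = ∏ c : Fin (r + 1) → F, (x + ∑ j, cst k F L (c j) * v j) := by
    intro x
    rw [← hPe, hPB, hB, eval_prod]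
    apply Finset.prod_congr rfl
    intro c _
    rw [eval_add, eval_X, eval_C, hcb]
  -- Cramer
  obtain ⟨Q, hQ⟩ : ∃ Q : Matrix (Fin (r + 1)) (Fin (r + 1)) L, Q = M.map (φ 1) := ⟨_, rfl⟩
  have hQe : ∀ i j, Q i j = v j ^ q ^ ((i : ℕ) + 1) := by
    intro i j
    rw [hQ, Matrix.map_apply, hMe, hφ, pow_one, ← pow_mul, ← pow_succ]
  have hQdet : Q.det = M.det ^ q := by
    rw [hQ, ← RingHom.mapMatrix_apply, ← RingHom.map_det, hφ, pow_one]
  have hQ0 : Q.det ≠ 0 := by rw [hQdet]; exact pow_ne_zero _ hdet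
  have hβ : ∀ x, Q.mulVec (fun i => α x i ^ q - α x i) = Pi.single (Fin.last r) (R' x) := by
    intro x
    funext j
    have h0 : ∀ y : L, y ^ q = φ 1 y := fun y => by rw [hφ, pow_one]
    have h1 : x ^ q ^ ((j : ℕ) + 1) = ∑ i, α x i ^ q * v i ^ q ^ ((j : ℕ) + 1) := by
      rw [pow_succ, pow_mul, hsys x j (by omega), h0, map_sum]
      apply Finset.sum_congr rfl
      intro i _
      rw [map_mul, ← h0, ← h0, ← pow_mul, ← pow_succ]
    have h2 : Q.mulVec (fun i => α x i ^ q - α x i) j =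
        x ^ q ^ ((j : ℕ) + 1) - ∑ i, α x i * v i ^ q ^ ((j : ℕ) + 1) := by
      rw [h1, ← Finset.sum_sub_distrib, Matrix.mulVec, dotProduct]
      apply Finset.sum_congr rfl
      intro i _
      rw [hQe]
      ring
    rw [h2]
    by_cases hj : j = Fin.last r
    · rw [hj, Pi.single_eq_same, hR']
      simp
    · rw [Pi.single_eq_of_ne hj, sub_eq_zero]
      apply hsys
      have : (j : ℕ) ≠ r := fun h => hj (Fin.ext (by simpa using h))
      omega
  have hart : ∀ x (i : Fin (r + 1)), α x i ^ q - α x i =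
      (-1) ^ (r + i.val) * R' x * (Mo q r (v ∘ i.succAbove) / Mo q (r + 1) v) ^ q := by
    intro x i
    have h1 : Q.det * (α x i ^ q - α x i) = (Q.adjugate.mulVec (Pi.single (Fin.last r) (R' x))) i := by
      rw [← hβ x, Matrix.mulVec_mulVec, Matrix.adjugate_mul, Matrix.smul_mulVec,
        Matrix.one_mulVec, Pi.smul_apply, smul_eq_mul]
    have h2 : (Q.adjugate.mulVec (Pi.single (Fin.last r) (R' x))) i =
        Q.adjugate i (Fin.last r) * R' x := by
      rw [Matrix.mulVec_single, Pi.smul_apply, Matrix.col_apply]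
      simp
    have h3 : Q.adjugate i (Fin.last r) =
        (-1) ^ (r + i.val) * (Mo q r (v ∘ i.succAbove)) ^ q := by
      rw [Matrix.adjugate_fin_succ_eq_det_submatrix]
      have h4 : Q.submatrix (Fin.last r).succAbove i.succAbove =
          (Matrix.of fun a b : Fin r => (v ∘ i.succAbove) b ^ q ^ (a : ℕ)).map (φ 1) := by
        ext a b
        rw [Matrix.submatrix_apply, hQe, Matrix.map_apply, Matrix.of_apply, hφ, pow_one,
          ← pow_mul, ← pow_succ, Fin.succAbove_last]
        simp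
      rw [h4, ← RingHom.mapMatrix_apply, ← RingHom.map_det, hφ, pow_one]
      simp [Mo]
    rw [hMo, div_pow, ← hQdet]
    field_simp
    rw [mul_comm, h1, h2, h3]
    ring
  refine ⟨fun i x => α x i, R', ⟨hM0, ?_, ?_, ?_, hsys, hart, hR'p⟩⟩
  · intro i x y
    show α (x + y) i = _
    rw [hadd]
    rfl
  · intro i c x
    show α (cst k F L c * x) i = _
    rw [hsmul]
    rfl
  · intro i j
    show α (v j) i = _
    rw [hbase]
    by_cases h : i = j
    · rw [if_pos h, h, Pi.single_eq_same]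
    · rw [if_neg h, Pi.single_eq_of_ne h]

end Pool.CND
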