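import Pool.Agent.H37.CTN.Stmts
import Pool.Agent.H37.CND.Base

/-!
# Board ctn, row N43
-/

set_option autoImplicit false

namespace Pool.CND

open Finset

theorem n43_thm : S_N43 := by
  intro p k F L _ _ _ _ _ _ f q r m κ t X P hp hchar hf hq hF hm hκ hN hO i hi hir
  classical
  have : Fact p.Prime := ⟨hp⟩
  have : CharP k p := hchar
  have : CharP L p := charP_of_injective_algebraMap (algebraMap k L).injective p
  have : ExpChar L p := ExpChar.prime hp
  have : ExpChar k p := ExpChar.prime hp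
  have hq2 : 2 ≤ q := by
    rw [hq]
    calc 2 ≤ p := hp.two_le
      _ = p ^ 1 := (pow_one p).symm
      _ ≤ p ^ f := Nat.pow_le_pow_right hp.pos hf
  have hr : 1 ≤ r := by
    rcases Nat.eq_zero_or_pos i.val with h | h
    · exact absurd (Fin.ext h) hi
    · omega
  have hs : ∀ c : Fin (r + m + 1) → F, c = Pi.single i 1 →
      ∑ j, cst k F L (c j) * X j = X i := by
    intro c hc
    rw [hc, Finset.sum_eq_single i]
    · simp [cst]
    · intro b _ hb
      simp [cst, Pi.single_eq_of_ne hb]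
    · intro h
      exact absurd (Finset.mem_univ i) h
  have hx0 : X i ≠ 0 := by
    intro h0
    have h1 := hN.ind (Pi.single i 1) (by rw [hs _ rfl, h0])
    have h2 := congrFun h1 i
    simp at h2
  have hxo : P.ord (X i) = 0 := by
    have h1 := hO.mid (Pi.single i 1) (by
      intro j hj
      apply Pi.single_eq_of_ne
      intro hji
      rw [hji] at hj
      omega) ⟨i, hi, by simp⟩
    rwa [hs _ rfl] at h1
  obtain ⟨x, hx⟩ : ∃ x, x = X i := ⟨_, rfl⟩
  have hrel := hN.rel i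
  rw [← hx] at hrel hx0 hxo ⊢
  obtain ⟨τ, hτ⟩ := P.residue x hx0 (by rw [hxo])
  refine ⟨τ, ?_⟩
  by_cases hxτ : x = algebraMap k L τ
  · exact Or.inl hxτ
  replace hτ := hτ.resolve_left hxτ
  right
  obtain ⟨κ', hκ'⟩ := IsAlgClosed.exists_pow_nat_eq κ (n := q) (by omega)
  have hκ0 : κ' ≠ 0 := by
    rintro rfl
    rw [zero_pow (by omega)] at hκ'
    exact hκ hκ'.symm
  have ht0 : t ≠ 0 := by
    intro h
    exact hN.tr (h ▸ (isAlgebraic_zero))
  have fr : ∀ (e : ℕ) (a b : L), (a + b) ^ q ^ e = a ^ q ^ e + b ^ q ^ e := by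
    intro e a b
    rw [hq, ← pow_mul, add_pow_expChar_pow]
  have fr1 : ∀ (a b : L), (a + b) ^ q = a ^ q + b ^ q := by
    intro a b
    have := fr 1 a b
    simpa only [pow_one] using this
  -- the polynomial N
  obtain ⟨N, hNd⟩ : ∃ N : L → L, ∀ y, N y = y ^ q ^ r + algebraMap k L κ' * y := ⟨_, fun _ => rfl⟩
  have hNadd : ∀ a b, N (a + b) = N a + N b := by
    intro a b
    rw [hNd, hNd, hNd, fr]
    ring
  have hNq : t * N x ^ q = -(x ^ q ^ (r + m + 1) + x) := by
    rw [hNd, fr1, ← pow_mul, ← pow_succ, mul_pow, ← map_pow, hκ']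
    linear_combination hrel
  obtain ⟨δ, hδ⟩ : ∃ δ, δ = x - algebraMap k L τ := ⟨_, rfl⟩
  have hxd : x = algebraMap k L τ + δ := by rw [hδ]; ring
  have hδ0 : δ ≠ 0 := by
    rw [hδ]
    exact sub_ne_zero.mpr hxτ
  rw [← hδ] at hτ ⊢
  have hneg := hO.neg
  -- order of the right side
  have hR : P.Ge (t * N x ^ q) 0 := by
    rw [hNq]
    apply P.ge_neg
    apply P.ge_add
    · right
      rw [P.ord_pow hx0, hxo]
      simp
    · right
      rw [hxo]
  have hNx : N x = 0 ∨ -P.ord t ≤ (q : ℤ) * P.ord (N x) := by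
    by_cases h : N x = 0
    · exact Or.inl h
    · right
      have h1 := hR.resolve_left (mul_ne_zero ht0 (pow_ne_zero _ h))
      rw [P.ord_mul _ _ ht0 (pow_ne_zero _ h), P.ord_pow h] at h1
      linarith
  have hqr : 2 ≤ q ^ r := by
    calc 2 ≤ q := hq2
      _ = q ^ 1 := (pow_one q).symm
      _ ≤ q ^ r := Nat.pow_le_pow_right (by omega) hr
  -- order of N δ
  have hcd : algebraMap k L κ' * δ ≠ 0 := mul_ne_zero (by
    rw [Ne, map_eq_zero]; exact hκ0) hδ0
  have hcdo : P.ord (algebraMap k L κ' * δ) = P.ord δ := by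
    rw [P.ord_mul _ _ (by rw [Ne, map_eq_zero]; exact hκ0) hδ0, P.ord_const κ' hκ0, zero_add]
  have hNδ : N δ ≠ 0 ∧ P.ord (N δ) = P.ord δ := by
    have h1 := P.ord_add_of_lt hcd (y := δ ^ q ^ r) (by
      right
      rw [hcdo, P.ord_pow hδ0]
      have h2 : (2 : ℤ) ≤ ((q ^ r : ℕ) : ℤ) := by exact_mod_cast hqr
      nlinarith)
    rw [hNd, add_comm]
    rw [hcdo] at h1
    exact h1
  have hNτ : N (algebraMap k L τ) = algebraMap k L (τ ^ q ^ r + κ' * τ) := by
    rw [hNd]
    simp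
  by_cases hc : τ ^ q ^ r + κ' * τ = 0
  · rw [hc, map_zero] at hNτ
    have h1 : N x = N δ := by rw [hxd, hNadd, hNτ, zero_add]
    rcases hNx with h | h
    · rw [h1] at h
      exact absurd h hNδ.1
    · rw [h1, hNδ.2] at h
      exact h
  · exfalso
    have h2 : algebraMap k L (τ ^ q ^ r + κ' * τ) ≠ 0 := by rwa [Ne, map_eq_zero]
    have h1 := P.ord_add_of_lt h2 (y := N δ) (by
      right
      rw [hNδ.2, P.ord_const _ hc]
      omega)
    have h3 : N x = algebraMap k L (τ ^ q ^ r + κ' * τ) + N δ := by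
      rw [← hNτ, ← hNadd, ← hxd]
    rw [← h3, P.ord_const _ hc] at h1
    rcases hNx with h | h
    · exact h1.1 h
    · rw [h1.2] at h
      omega

end Pool.CND
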